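import Pool.Agent.H15.C6F.FK
import Pool.Agent.H15.C6F.FL

/-!
The exact minimum-degree threshold for `C_6`-decompositions, for all sufficiently large `n`.
-/

namespace Pool.Agent.Results.MP_1bffa4_co.ExactThreshold

/-- `G` is `C_6`-divisible: the number of edges is divisible by six and all degrees are even -/
def C6Divisible {n : ℕ} (G : SimpleGraph (Fin n)) : Prop :=
  6 ∣ G.edgeSet.ncard ∧ ∀ v : Fin n, Even (G.neighborSet v).ncard

/-- the minimum degree of `G` is at least `d` -/
def MinDegreeAtLeast {n : ℕ} (G : SimpleGraph (Fin n)) (d : ℕ) : Prop :=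
  ∀ v : Fin n, d ≤ (G.neighborSet v).ncard

/-- `G` has a `C_6`-decomposition: a collection of subgraphs isomorphic to the cycle of length six such
that every edge of `G` lies in exactly one of them -/
def HasC6Decomposition {n : ℕ} (G : SimpleGraph (Fin n)) : Prop :=
  ∃ D : Set G.Subgraph, (∀ H ∈ D, Nonempty (H.coe ≃g SimpleGraph.cycleGraph 6)) ∧
    ∀ e ∈ G.edgeSet, ∃! H : G.Subgraph, H ∈ D ∧ e ∈ H.edgeSet

/-- `d ∈ {0,...,n}` is good for `n`: every `C_6`-divisible graph on `n` vertices with minimum degree at
least `d` has a `C_6`-decomposition.  `f(n)` is the least good `d`. -/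
def Good (n d : ℕ) : Prop :=
  d ≤ n ∧ ∀ G : SimpleGraph (Fin n), C6Divisible G → MinDegreeAtLeast G d → HasC6Decomposition G

/-- the value of `f(n)` -/
def value (n : ℕ) : ℕ :=
  if n % 4 = 0 then n / 2 - 1
  else if n % 4 = 2 then n / 2
  else if n % 4 = 3 then (n - 1) / 2
  else if n % 24 = 5 ∨ n % 24 = 13 then (n + 1) / 2
  else (n - 3) / 2

/-- for all large `n` the least good `d` is `value n` -/
theorem result : ∃ n0 : ℕ, ∀ n : ℕ, n0 ≤ n → IsLeast {d : ℕ | Good n d} (value n) := by
  obtain ⟨n1, hup⟩ := H15C6.upper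
  refine ⟨max n1 1000, ?_⟩
  intro n hn
  have hn1 : n1 ≤ n := (le_max_left _ _).trans hn
  have hn2 : 1000 ≤ n := (le_max_right _ _).trans hn
  have hval : value n = H15C6.thr n := rfl
  constructor
  · refine ⟨?_, ?_⟩
    · unfold value
      split_ifs <;> omega
    · intro G hG hd
      apply H15C6.decomposition_of_dec G
      have hcard : Fintype.card (Fin n) = n := Fintype.card_fin n
      have hdeg : ∀ v, H15C6.deg (H15C6.eset G) v = (G.neighborSet v).ncard :=
        fun v => H15C6.eset_deg G v
      have hd' : ∀ v, value n ≤ H15C6.deg (H15C6.eset G) v := fun v => by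
        rw [hdeg]; exact hd v
      have he' : ∀ v, Even (H15C6.deg (H15C6.eset G) v) := fun v => by
        rw [hdeg]; exact hG.2 v
      have key : ∀ v, (n ≤ 2 * H15C6.deg (H15C6.eset G) v + 1) ∧
          ((n % 24 ≠ 5 ∧ n % 24 ≠ 13) ∨ n ≤ 2 * H15C6.deg (H15C6.eset G) v) := by
        intro v
        have h1 := hd' v
        obtain ⟨m, hm⟩ := he' v
        unfold value at h1
        split_ifs at h1 <;> constructor <;> omega
      apply hup (Fin n) (H15C6.eset G) (by rw [hcard]; exact hn1) (H15C6.eset_loopless G) he'
      · rw [H15C6.eset_card]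
        exact hG.1
      · intro v
        rw [hcard]
        exact (key v).1
      · rw [hcard]
        by_cases h24 : n % 24 ≠ 5 ∧ n % 24 ≠ 13
        · exact Or.inl h24
        · exact Or.inr (fun v => ((key v).2).resolve_left h24)
  · intro d hd
    by_contra hlt
    rw [not_le] at hlt
    obtain ⟨E, hl, he, h6, hD, hdeg⟩ := H15C6.lower n hn2
    obtain ⟨G, hG⟩ := H15C6.exists_graph E hl
    apply hD
    have h1 : HasC6Decomposition G := by
      apply hd.2 G
      · refine ⟨?_, ?_⟩
        · rw [← H15C6.eset_card, hG]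
          exact h6
        · intro v
          rw [← H15C6.eset_deg, hG]
          exact he v
      · intro v
        rw [← H15C6.eset_deg, hG]
        have := hdeg v
        rw [hval] at hlt
        omega
    have h2 := H15C6.dec_of_decomposition G h1
    rw [hG] at h2
    exact h2

end Pool.Agent.Results.MP_1bffa4_co.ExactThreshold
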